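import Pool.Agent.J6H7.BD.Main

set_option autoImplicit false

/-! # The equivariant motivic monodromy conjecture for forms over the determinantal ideals of block diagonal matrices

Let `X_1, …, X_k` be matrices with independent entries: for each `b < k` either the generic `m × n`
matrix or the generic symmetric `n × n` matrix (`Blk`), and let `M = diag(X_1, …, X_k)` be the block
diagonal matrix with these blocks (`blockMatrix S`, with `S b` the type of `X_b`). So the ideal
`I_p` of the `p`-minors of `M` is the sum of the products `∏ b, I_{q b}(X_b)` over all `q` with
`∑ b, q b = p`. Let `r = ∑ b, rk X_b` (`rkS S`) be the maximal rank of `M`. Let `p t < r`, `t < T`, be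
sizes of minors, which are distributed over `B` groups: `t` belongs to the group `β t`. For `b < B` let

  `F_b = ∑_J y_{b,J} ∏_{β t = b} M_{J t}(x)`,

where `J` runs over the choices of one minor `M_{J t}` of `M` of size `p t` for each `t` in the group
`b`, and the `y_{b,J}` are further variables. So `F_b` is the form over the product of the ideals
`I_{p t}`, `β t = b`. Let `f = ∏ b, F_b ^ a b` (`bdForm`). All coefficients of `f` are integers.

For a tuple `d = (d_b)`, `d_b ≤ rk X_b`, with `d_b < rk X_b` for some `b` (`Loc S`), let `Z_d` be the
set of the `x` with `rank X_b ≤ d_b` for all `b`, `ν_d` its codimension, the sum of the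
`(m - d_b) (n - d_b)`, respectively `(n - d_b) (n - d_b + 1) / 2` (`Loc.codim`), and `|d| = ∑ b, d_b`. Let
`P` be the maximum of the `p t` with `a (β t) > 0`. Let `Y` be the space obtained by blowing up, for
`j = 0, 1, …, P - 1`, the strict transforms of the `Z_d` with `|d| = j`. Near a point at which `X_b`
has the rank `r_b` for all `b`, the pair of the space and the family of the `Z_d`, `I_p` is, by Schur
complements, the product of a smooth space with the corresponding family at the origin for smaller
blocks, with `d - r` and `p - |r|` instead of `d` and `p`; and on the blow-up of the origin `M` is the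
equation of `E_0` times a block diagonal matrix of the same kind which is not zero at any point. By
induction, the strict transforms of the `Z_d` with `|d| = j` are smooth and disjoint when they are
blown up, `Y` is smooth, the `E_d`, `|d| < P`, cross normally, the multiplicity of the Jacobian
determinant along `E_d` is `ν_d - 1`, and for `p ≤ P` the ideal `I_p` is locally on `Y` generated by one
of the minors and has the multiplicity `max (p - |d|, 0)` along `E_d`. So the form `F_b` is locally on
`Y` one of the products `M_J = ∏_{β t = b} M_{J t}` times `y_{b,J} + ∑_{I ≠ J} g_I y_{b,I}`; hence `Y`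
times the space of the `y` is an embedded resolution of `f`, with the components `E_d`, `|d| < P`, of
multiplicity `N_d = ∑ t, a (β t) max (p t - |d|, 0)`, and, for `a b > 0`, the strict transform of
`F_b = 0`, with multiplicity `a b` and `ν = 1` (`bdMul`, `bdNu`). It is defined over the prime field.

By the formula of Denef and Loeser the equivariant motivic zeta function of `f` over
`X_s = {f = 0}` is `∑_I c_I ∏_{i ∈ I} 𝕃 ^ (-ν_i) T ^ (N_i) / (1 - 𝕃 ^ (-ν_i) T ^ (N_i))` (`dlZ`), where `I`
runs over the non-empty sets of components and `c_I ∈ 𝓜^μ_{X_s}` is `(𝕃 - 1) ^ (|I| - 1)` times the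
class of the covering of the stratum `I` with its action of `μ`. The ring `R` below is a
commutative ring with a unit `u`, for example `R = 𝓜^μ_{X_s}` with `u = 𝕃`.

The proof for the roots: a functional equation of `f` gives a functional equation of the product of
the powers of the ideals, with the same `b`, and the `E_d` are Rees divisors of this ideal: at a
general point of `E_d` the exceptional coordinates are given by quotients of minors, in a chart with
the block diagonal matrix with the blocks `X_b = (A_b, B_b; C_b, C_b A_b⁻¹ B_b + z Y_b)`, with one
equation `z` for all the blocks; the roots `-1 / a b` come from the strict transforms. -/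

namespace Pool.Agent.Results.MP_b48657_ag.BlockDiagonal

open Pool.Agent.H628R4.TP Pool.Agent.TH192.DT Pool.Agent.J6H7.BD

/-- **The equivariant motivic monodromy conjecture for `f = ∏ b, F_b ^ a b`**, `F_b` the forms over
products of ideals of minors of a block diagonal matrix with `k` independent generic or symmetric
blocks. There is a finite set `P` of pairs `(a, b)`, `a < 0 < b`, such that `a / b` is a root of every
`b'` with `b'(s) f ^ s = P(s) f ^ (s + 1)`, in particular of the Bernstein-Sato polynomial of `f`, and
for every commutative ring `R` with a unit `u` (`𝓜^μ_{X_s}` and `𝕃`) every series which is given by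
the formula of Denef and Loeser on the resolution described above, with arbitrary `c I ∈ R`, lies in
the ring generated over `R` by `T` and the `1 / (1 - u ^ a T ^ b)`, `(a, b) ∈ P`. -/
theorem result {k : ℕ} (S : Fin k → Blk) (T B : ℕ) (p : Fin T → ℕ) (β : Fin T → Fin B)
    (a : Fin B → ℕ) (hp : ∀ t, p t < rkS S) :
    ∃ P : Finset (ℤ × ℤ), (∀ q ∈ P, q.1 < 0 ∧ 0 < q.2 ∧
      ∀ b : Polynomial ℂ, IsBFunction (bdForm S p β a) b → b.eval ((q.1 : ℂ) / q.2) = 0) ∧
    ∀ (R : Type) [CommRing R] (u : Rˣ) (c : Finset {i // 0 < bdMul S p β a i} → R),
      dlZ u (bdNu S B) (bdMul S p β a) c ∈ ratU u (P : Set (ℤ × ℤ)) := by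
  obtain ⟨P, h1, h2⟩ := bd_mot S p β a hp
  exact ⟨P, fun q hq => ⟨(h1 q hq).1, (h1 q hq).2.1, (h1 q hq).2.2.1⟩, h2⟩

end Pool.Agent.Results.MP_b48657_ag.BlockDiagonal
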