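import Pool.Agent.J6H66.FM.Main

set_option autoImplicit false

/-! # The equivariant motivic monodromy conjecture for forms over flags of determinantal ideals

Let `X` be the generic `m × n` matrix, and let `R` be a finite set of numbers `r ≤ m`: the blocks of
rows of `X` end at the rows `r ∈ R`. If `r' < q ≤ r` for consecutive elements `r' < r` of `R ∪ {0}`
(`r' = blockStart R q`, `r = blockEnd R q`), let `J_q` be the ideal generated by the `q`-minors of the
first `r` rows of `X` which contain the first `r'` rows (`flagMinor`). For `R = {m}` it is the ideal of
all `q`-minors, for `R = {1, …, m}` it is the ideal of the maximal minors of the first `q` rows, that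
is, of the Plücker coordinates of the flag of the row spaces. Let `1 ≤ q t ≤ n`, `t < T`, be sizes of
minors which satisfy the completeness condition of `IsFlagType`: for every `j ≤ N := max q` there is a
`t` with `q t = j`, or with `j < q t < n` such that the row `q t` is in the block of the row `j`
and is not its last row. For instance, all `j ≤ N` occur, or, for each block, the last two of its
`j ≤ N` occur.

The `t` are distributed over `B` groups: `t` belongs to the group `β t`. For `b < B` let

  `F_b = ∑_K y_{b,K} ∏_{β t = b} M_{K t}(x)`,

where `K` runs over the choices of one generator `M_{K t}` of `J_(q t)` for each `t` in the group `b`,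
and the `y_{b,K}` are further variables. So `F_b` is the form over the product of the ideals
`J_(q t)`, `β t = b`. Let `f = ∏ b, F_b ^ a b` (`flagForm`), `a b > 0` for `b = β t`. All coefficients
of `f` are integers.

For `1 ≤ j ≤ N` let `Z_j` be the set of the matrices, the first `r = blockEnd R j` rows of which have
rank less than `j`; it has the codimension `ν_j = (r - j + 1) (n - j + 1)` (`flagNu`, `j = d + 1`). Let
`Y` be the space obtained by blowing up, for `j = 1, …, N`, the strict transforms of the `Z_j`. It is a
tower of spaces of complete collineations: let `r' < r` be as above, and let the centers of index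
`j ≤ r'` be blown up already. By induction, the ideal of the maximal minors of the first `r'` rows is
then locally generated by one minor; that is, the first `r'` rows are, up to the order of the
columns, `A (1, W)` with a square matrix `A`, `det A` the generator of this ideal, and a matrix `W` of
regular functions. Let `(C, D)` be the next block of rows. Its entries are coordinates, which can be
changed to the entries of `C` and of `D' = D - C W`. By row and column operations, for `r' < q ≤ r`
the ideal `J_q` is the product of `(det A)` and the ideal of the `(q - r')`-minors of the generic
`(r - r') × (n - r')` matrix `D'`, and the strict transform of `Z_j`, `r' < j ≤ r`, is the set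
`rank D' < j - r'`. So the next blow-ups are those of the theorem on complete collineations for
`D'`: their centers are smooth, `Y` is smooth, the `E_j` cross normally, the multiplicity of the
Jacobian determinant along `E_j` is `ν_j - 1`, and for `q ≤ N` the ideal `J_q` is locally on `Y`
generated by one of its generators and has the multiplicity `max (min (q, blockEnd R j) - j + 1, 0)`
(`flagOrd`) along `E_j`: for the `j` in the block of `q` this is `max (q - j + 1, 0)`, for the `j` in an
earlier block it is the multiplicity of `det A`. So `F_b` is locally on `Y` one of the products
`M_K = ∏_{β t = b} M_{K t}` times `y_{b,K} + ∑_{I ≠ K} g_I y_{b,I}`; hence `Y` times the space of the `y`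
is an embedded resolution of `f`, with the components `E_j`, `j ≤ N`, of multiplicity
`N_j = ∑ t, a (β t) max (min (q t, blockEnd R j) - j + 1, 0)`, and, for `a b > 0`, the strict transform
of `F_b = 0`, with multiplicity `a b` and `ν = 1` (`flagMul`, `flagNuX`). It is defined over the prime
field.

By the formula of Denef and Loeser the equivariant motivic zeta function of `f` over
`X_s = {f = 0}` is `∑_I c_I ∏_{i ∈ I} 𝕃 ^ (-ν_i) T ^ (N_i) / (1 - 𝕃 ^ (-ν_i) T ^ (N_i))` (`dlZ`), where `I`
runs over the non-empty sets of components and `c_I ∈ 𝓜^μ_{X_s}` is `(𝕃 - 1) ^ (|I| - 1)` times the
class of the covering of the stratum `I` with its action of `μ`. The ring `R'` below is a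
commutative ring with a unit `u`, for example `R' = 𝓜^μ_{X_s}` with `u = 𝕃`.

The proof for the roots: a functional equation of `f` gives a functional equation of the product of
the powers of the ideals, with the same `b`, and the
`E_j` are Rees divisors of this ideal: at a general point of `E_j` (`d = j - 1`, `h = blockEnd R j`) we
use the chart with the first `d` rows `(A, B)`, the rows `d < i ≤ h` of the form `(C A, C B + z Y)`, and
free further rows; the exceptional coordinates `Y` are given by quotients of minors in `J_(q t)`, with
the `t` of the completeness condition for `j`. The roots `-1 / a b` come from the strict transforms. -/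

namespace Pool.Agent.Results.MP_b48657_ag.FlagDeterminantal

open Pool.Agent.H628R4.TP Pool.Agent.TH192.DT Pool.Agent.J6H66.FM

/-- **The equivariant motivic monodromy conjecture for `f = ∏ b, F_b ^ a b`**, `F_b` the forms over
products of ideals `J_(q t)` of a flag of determinantal ideals. There is a finite set `P` of pairs
`(a, b)`, `a < 0 < b`, such that `a / b` is a root of every `b'` with `b'(s) f ^ s = P(s) f ^ (s + 1)`, in
particular of the Bernstein-Sato polynomial of `f`, and for every commutative ring `R'` with a unit
`u` (`𝓜^μ_{X_s}` and `𝕃`) every series which is given by the formula of Denef and Loeser on the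
resolution described above, with arbitrary `c I ∈ R'`, lies in the ring generated over `R'` by `T`
and the `1 / (1 - u ^ a T ^ b)`, `(a, b) ∈ P`. -/
theorem result (R : Finset ℕ) (m n T B : ℕ) (q : Fin T → ℕ) (β : Fin T → Fin B)
    (a : Fin B → ℕ) (hq : IsFlagType R m n q) (ha : ∀ t, 0 < a (β t)) :
    ∃ P : Finset (ℤ × ℤ), (∀ p ∈ P, p.1 < 0 ∧ 0 < p.2 ∧
      ∀ b : Polynomial ℂ, IsBFunction (flagForm R m n q β a) b → b.eval ((p.1 : ℂ) / p.2) = 0) ∧
    ∀ (R' : Type) [CommRing R'] (u : R'ˣ) (c : Finset {i // 0 < flagMul R q β a i} → R'),
      dlZ u (flagNuX R n q B) (flagMul R q β a) c ∈ ratU u (P : Set (ℤ × ℤ)) := by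
  obtain ⟨P, h1, h2⟩ := flag_mot β a hq ha
  exact ⟨P, fun p hp => ⟨(h1 p hp).1, (h1 p hp).2.1, (h1 p hp).2.2.1⟩, h2⟩

end Pool.Agent.Results.MP_b48657_ag.FlagDeterminantal
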