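import Pool.Agent.J6H66.KR.Main

set_option autoImplicit false

/-! # The equivariant motivic monodromy conjecture for forms over the ideals of controllability matrices

Let `v_1, …, v_s` be generic row vectors of length `n` and `X_1, …, X_r` generic `n × n` matrices; all
entries are independent variables (`Row`, `KVar`). Let `w_0, …, w_(N-1)`, `N ≤ n`, be a list of words
(`word`, `IsWordList`): each `w_ρ` is one of the vectors `v_i`, or `w_ρ = w_a X_c` with `a < ρ`; the
words are different, and if `w_ρ = w_a X_c` then all `w_b X_c`, `b < a`, occur before. For `s = r = 1`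
these are the Krylov vectors `v, v X, …, v X ^ (N - 1)`; for `r = 1` the list
`v_1, …, v_s, v_1 X, …, v_s X, v_1 X ^ 2, …` gives the controllability matrices of a linear system with
`s` inputs; for `r ≥ 2` we get the matrices of the words in non-commuting variables, ordered by
length, which define the charts of the non-commutative Hilbert schemes; for `r = 0` we get the rows
of a generic matrix. For `1 ≤ q ≤ N` let `P_q` be the ideal of the maximal minors of the `q × n` matrix
with the rows `w_0, …, w_(q-1)` (`wordMinor`). Let `q t`, `t < T`, be numbers such that each of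
`1, …, N` occurs at least once (`IsKrylovType`).

The `t` are distributed over `B` groups: `t` belongs to the group `β t`. For `b < B` let

  `F_b = ∑_K y_{b,K} ∏_{β t = b} M_{K t}(v, X)`,

where `K` runs over the choices of one maximal minor `M_{K t}` of the matrix with the rows
`w_0, …, w_(q t - 1)` for each `t` in the group `b`, and the `y_{b,K}` are further variables. So `F_b` is
the form over the product of the ideals `P_(q t)`, `β t = b`. Let `f = ∏ b, F_b ^ a b` (`wordForm`),
`a b > 0` for `b = β t`. All coefficients of `f` are integers. For `r ≥ 1` the group `GL_n` has no dense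
orbit here, since the `X_c` have invariants.

For `1 ≤ j ≤ N` let `Z_j` be the closure of the set where `w_0, …, w_(j-2)` are linearly independent
and `w_(j-1)` is in their span; it has the codimension `ν_j = n - j + 1`. Let `Y` be the space obtained
by blowing up, for `j = 1, …, N`, the strict transforms of the `Z_j`, with the exceptional divisors
`E_j`, and let `z_j` be a local equation of `E_j`. Let the first `j - 1` centers be blown up. By
induction, there are locally vectors `u_0, …, u_(j-2)` of regular functions, which are linearly
independent at each point, such that `w_ρ` is congruent to `ζ_ρ u_ρ` modulo the `u_b`, `b < ρ`, where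
`ζ_ρ` is the product of the `z_i` for which `w_ρ` is a descendant of `w_(i-1)` (that is,
`w_ρ = w_(i-1) X_c X_c' ⋯`). If `w_(j-1) = w_a X_c`, the entries of `h = u_a X_c` are independent
coordinates, since the space has up to now only been changed over the products `u_b X_c`, `b < a`, and
the other `X_c'`, and since the `u_b` are linearly independent; `w_(j-1)` is congruent to `ζ_a h` modulo
the `u_b`, `b ≤ j - 2`, since `w_a` is congruent to `ζ_a u_a` modulo the `u_b`, `b < a`, and the `u_b X_c`
are combinations of the `u_b'`, `b' ≤ j - 2`. If `w_(j-1) = v_i`, the same holds with `h = v_i` and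
`ζ = 1` for `ζ_a`. The strict transform of `Z_j` is the set where `h` vanishes modulo
`u_0, …, u_(j-2)`; so it is smooth of codimension `n - j + 1`, crosses the `E_i` normally, and on its
blow-up `h` is congruent to `z_j u_(j-1)`, which completes the induction. So `Y` is smooth, the `E_j`
cross normally, the multiplicity of the Jacobian determinant along `E_j` is `ν_j - 1`, and `P_q` is
locally on `Y` generated by one of the minors, `∏_{ρ < q} ζ_ρ` up to a unit, and has along `E_j` the
multiplicity `D(j, q)`, the number of the descendants of `w_(j-1)` among `w_0, …, w_(q-1)`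
(`descCount`, `j = d + 1`). So `F_b` is locally on `Y` one of the products `M_K = ∏_{β t = b} M_{K t}`
times `y_{b,K} + ∑_{I ≠ K} g_I y_{b,I}`; hence `Y` times the space of the `y` is an embedded resolution
of `f`, with the components `E_j`, `j ≤ N`, of multiplicity `N_j = ∑ t, a (β t) D(j, q t)`, and, for
`a b > 0`, the strict transform of `F_b = 0`, with multiplicity `a b` and `ν = 1` (`wordMul`,
`wordNu`). It is defined over the prime field.

By the formula of Denef and Loeser the equivariant motivic zeta function of `f` over
`X_s = {f = 0}` is `∑_I c_I ∏_{i ∈ I} 𝕃 ^ (-ν_i) T ^ (N_i) / (1 - 𝕃 ^ (-ν_i) T ^ (N_i))` (`dlZ`), where `I`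
runs over the non-empty sets of components and `c_I ∈ 𝓜^μ_{X_s}` is `(𝕃 - 1) ^ (|I| - 1)` times the
class of the covering of the stratum `I` with its action of `μ`. The ring `R'` below is a
commutative ring with a unit `u`, for example `R' = 𝓜^μ_{X_s}` with `u = 𝕃`.

The proof for the roots: a functional equation of `f` gives a functional equation of the product of
the powers of the ideals, with the same `b`, and the `E_j` are Rees divisors of this ideal: at a
general point of `E_j`, `d = j - 1`, we use the chart in which `w_0, …, w_(d-1)` are free,
`w_d = ∑_{a < d} t_a w_a + z Y`, and the rows of `V X_c` are free or one of these vectors, `V` the matrix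
with the rows `w_0, …, w_(d-1), e_d, …, e_(n-1)`; the exceptional coordinates `Y` are quotients of the
maximal minors of `w_0, …, w_d`. The roots `-1 / a b` come from the strict transforms. -/

namespace Pool.Agent.Results.MP_b48657_ag.KrylovForms

open Pool.Agent.H628R4.TP Pool.Agent.TH192.DT Pool.Agent.J6H66 Pool.Agent.J6H66.KR

/-- **The equivariant motivic monodromy conjecture for `f = ∏ b, F_b ^ a b`**, `F_b` the forms over
products of ideals of maximal minors of words (controllability matrices). There is a finite set `P`
of pairs `(a, b)`, `a < 0 < b`, such that `a / b` is a root of every `b'` with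
`b'(s) f ^ s = P(s) f ^ (s + 1)`, in particular of the Bernstein-Sato polynomial of `f`, and for every
commutative ring `R'` with a unit `u` (`𝓜^μ_{X_s}` and `𝕃`) every series which is given by the
formula of Denef and Loeser on the resolution described above, with arbitrary `c I ∈ R'`, lies in the
ring generated over `R'` by `T` and the `1 / (1 - u ^ a T ^ b)`, `(a, b) ∈ P`. -/
theorem result {s r n : ℕ} (L : ℕ → Row s r n) (N T B : ℕ) (q : Fin T → ℕ)
    (β : Fin T → Fin B) (a : Fin B → ℕ) (hq : IsKrylovType L N q) (ha : ∀ t, 0 < a (β t)) :
    ∃ P : Finset (ℤ × ℤ), (∀ p ∈ P, p.1 < 0 ∧ 0 < p.2 ∧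
      ∀ b : Polynomial ℂ, IsBFunction (wordForm L q β a) b → b.eval ((p.1 : ℂ) / p.2) = 0) ∧
    ∀ (R' : Type) [CommRing R'] (u : R'ˣ) (c : Finset {i // 0 < wordMul L N q β a i} → R'),
      dlZ u (wordNu n N B) (wordMul L N q β a) c ∈ ratU u (P : Set (ℤ × ℤ)) := by
  obtain ⟨P, h1, h2⟩ := word_mot β a hq ha
  exact ⟨P, fun p hp => ⟨(h1 p hp).1, (h1 p hp).2.1, (h1 p hp).2.2.1⟩, h2⟩

end Pool.Agent.Results.MP_b48657_ag.KrylovForms
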