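import Pool.Agent.J6H7.HK.Main

set_option autoImplicit false

/-! # The equivariant motivic monodromy conjecture for forms over products of Hankel determinantal ideals

Let `x_0, …, x_{N - 1}` be the coordinates of the affine space. The Hankel matrices `(x_{i + j})` of rank
at most `d` form a closed subset `Σ_d`, `2 d < N`, of dimension `2 d`: the affine cone over the variety of
`d`-secant `(d - 1)`-planes of the rational normal curve of degree `N - 1`. Its ideal `I_{d + 1}` is
generated by the maximal minors of the `(d + 1) × (N - d)` Hankel matrix, and also by the
`(d + 1)`-minors of the other Hankel matrices in these variables which have at least `d + 1` rows and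
columns (Gruson and Peskine). Let `p t`, `t < T`, be numbers with `2 p t < N`, which are distributed over
`B` groups: `t` belongs to the group `β t`. For `b < B` let

  `F_b = ∑_J y_{b,J} ∏_{β t = b} M_{t,J t}(x)`,

where `J` runs over the choices of one maximal minor `M_{t,J t}` (`hankel N (p t) (J t)`) of the
`p t × (N + 1 - p t)` Hankel matrix for each `t` in the group `b`, and the `y_{b,J}` are further variables.
So `F_b` is the form over the product of the ideals `I_{p t}`, `β t = b`, and the same `F_b` contains
different ideals `I_{p t}`. Let `f = ∏ b, F_b ^ a b` (`hkForm`).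

The resolution. Let `P` be the maximum of the `p t` with `a (β t) > 0`, and let `Y` be obtained from
the affine space by blowing up `Σ_0 = {0}` and the strict transforms of `Σ_1, …, Σ_{P - 1}`, in this
order. It is smooth, and the exceptional divisors `E_0, …, E_{P - 1}` cross normally (Bertram; Thaddeus;
Vermeire): near a point of rank `d` the affine space with the `Σ_{d + j}` and the ideals `I_{d + j}` is
the product of a smooth germ of dimension `2 d` and of the affine space of dimension `N - 2 d` with its
`Σ_j` and `I_j`. So the multiplicity of the Jacobian determinant along `E_d` is `ν_d - 1` with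
`ν_d = N - 2 d`, and `I_p` becomes the ideal of the divisor `∑_{d < p} (p - d) E_d`. So the form `F_b` is
locally on `Y` one of the products `M_J = ∏_{β t = b} M_{t,J t}` times `y_{b,J} + ∑_{I ≠ J} g_I y_{b,I}`;
hence `Y` times the space of the `y` is an embedded resolution of `f`, with the components `E_d`, of
multiplicity `N_d = ∑ t, a (β t) max (p t - d, 0)`, and, for `a b > 0`, the strict transform of
`F_b = 0`, with multiplicity `a b` and `ν = 1` (`hkMul`, `hkNu`; in these definitions all
`d < (N + 1) / 2` are listed, the `d ≥ P` have the multiplicity `0` and do not matter).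

By the formula of Denef and Loeser the equivariant motivic zeta function of `f` over
`X_s = {f = 0}` is `∑_I c_I ∏_{i ∈ I} 𝕃 ^ (-ν_i) T ^ (N_i) / (1 - 𝕃 ^ (-ν_i) T ^ (N_i))` (`dlZ`), where `I`
runs over the non-empty sets of components and `c_I ∈ 𝓜^μ_{X_s}` is `(𝕃 - 1) ^ (|I| - 1)` times the
class of the covering of the stratum `I` with its action of `μ`. The ring `R` below is a
commutative ring with a unit `u`, for example `R = 𝓜^μ_{X_s}` with `u = 𝕃`.

The proof for the roots: a functional equation of `f` gives a functional equation of the product of
the powers of the ideals, with the same `b`, and `E_d` is a Rees divisor of this product: in the chart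
`x_k = R_k + z w_k`, where `R_k` is the sequence which satisfies the recurrence of length `d` given by
the leading `d × d` Hankel matrix and the first `2 d` coordinates, the coordinates `w_k`, `k ≥ 2 d`, are,
up to terms of order two and the other coordinates, quotients of two minors which differ in one
column, by Cramer's rule (`Pool.Agent.R779.HK.Chart.chart_exists`); the roots `-(1 + l) / a b` come from the
strict transforms. -/

namespace Pool.Agent.Results.MP_b48657_ag.MixedHankel

open Pool.Agent.H628R4.TP Pool.Agent.TH192.DT Pool.Agent.J6H7.HK

/-- **The equivariant motivic monodromy conjecture for `f = ∏ b, F_b ^ a b`**, `F_b` the forms over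
products of Hankel determinantal ideals, the ideals of the secant varieties of the rational normal
curve of degree `N - 1`. There is a finite set `P` of pairs `(a, b)`, `a < 0 < b`, such that `a / b` is a
root of every `b'` with `b'(s) f ^ s = P(s) f ^ (s + 1)`, in particular of the Bernstein-Sato
polynomial of `f`, and for every commutative ring `R` with a unit `u` (`𝓜^μ_{X_s}` and `𝕃`) every
series which is given by the formula of Denef and Loeser on the resolution described above, with
arbitrary `c I ∈ R`, lies in the ring generated over `R` by `T` and the `1 / (1 - u ^ a T ^ b)`,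
`(a, b) ∈ P`. -/
theorem result (N T B : ℕ) (p : Fin T → ℕ) (β : Fin T → Fin B) (a : Fin B → ℕ)
    (hp : ∀ t, 2 * p t < N) :
    ∃ P : Finset (ℤ × ℤ), (∀ q ∈ P, q.1 < 0 ∧ 0 < q.2 ∧
      ∀ b : Polynomial ℂ, IsBFunction (hkForm N p β a) b → b.eval ((q.1 : ℂ) / q.2) = 0) ∧
    ∀ (R : Type) [CommRing R] (u : Rˣ) (c : Finset {i // 0 < hkMul N p β a i} → R),
      dlZ u (hkNu N B) (hkMul N p β a) c ∈ ratU u (P : Set (ℤ × ℤ)) := by
  obtain ⟨P, h1, h2⟩ := hk_mot N p β a hp
  exact ⟨P, fun q hq => ⟨(h1 q hq).1, (h1 q hq).2.1, (h1 q hq).2.2.1⟩, h2⟩

end Pool.Agent.Results.MP_b48657_ag.MixedHankel
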